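import Mathlib

/-!
# Descent through finite groups of characters: the core

An abelian group `X` (of characters) acts on a set `Rep` (of cuspidal automorphic representations, or of irreducible
Galois representations), and `{χ | χ τ = τ'}` is finite for all `τ`, `τ'`. Let `D j` be finite subgroups of `X` such that
for every finite subset `E` of `X` there is a `j` with `D j ∩ E ⊆ {1}`, and let `C j` be `D j`-invariant multisets of
representations with `∑_{δ ∈ D k} δ C j = ∑_{δ ∈ D j} δ C k` for all `j`, `k`. Then there is a multiset `B` such that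
`C j = ∑_{δ ∈ D j} δ B` for all `j` for which `D j` does not meet a finite set outside `1`.
-/

set_option autoImplicit false

open Finset

namespace Run7.h55.KD

variable {X Rep J : Type} [CommGroup X] [MulAction X Rep]

/-- the translate of a multiset -/
def tr (δ : X) (C : Multiset Rep) : Multiset Rep := C.map fun τ => δ • τ

theorem tr_one (C : Multiset Rep) : tr (1 : X) C = C := by
  unfold tr
  simp

theorem tr_tr (δ ε : X) (C : Multiset Rep) : tr δ (tr ε C) = tr (δ * ε) C := by
  unfold tr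
  rw [Multiset.map_map]
  refine Multiset.map_congr rfl fun τ _ => ?_
  simp only [Function.comp_apply, mul_smul]

theorem tr_zero (δ : X) : tr δ (0 : Multiset Rep) = 0 := rfl

theorem tr_add (δ : X) (C D : Multiset Rep) : tr δ (C + D) = tr δ C + tr δ D := Multiset.map_add _ _ _

theorem tr_sum {ι : Type} (δ : X) (s : Finset ι) (C : ι → Multiset Rep) :
    tr δ (∑ i ∈ s, C i) = ∑ i ∈ s, tr δ (C i) := by
  classical
  refine Finset.induction_on s ?_ fun i s hi ih => ?_
  · rw [Finset.sum_empty, Finset.sum_empty, tr_zero]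
  · rw [Finset.sum_insert hi, Finset.sum_insert hi, tr_add, ih]

theorem count_tr [DecidableEq Rep] (δ : X) (τ : Rep) (C : Multiset Rep) :
    Multiset.count τ (tr δ C) = Multiset.count (δ⁻¹ • τ) C := by
  have h := Multiset.count_map_eq_count' (fun τ : Rep => δ • τ) C (MulAction.injective δ) (δ⁻¹ • τ)
  rw [smul_inv_smul] at h
  exact h

theorem mem_tr {δ : X} {τ : Rep} {C : Multiset Rep} : τ ∈ tr δ C ↔ δ⁻¹ • τ ∈ C := by
  classical
  rw [← Multiset.count_pos, count_tr, Multiset.count_pos]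

/-- a finite subgroup, as a finite set -/
structure IsGrp (D : Finset X) : Prop where
  one_mem : 1 ∈ D
  mul_mem : ∀ a ∈ D, ∀ b ∈ D, a * b ∈ D
  inv_mem : ∀ a ∈ D, a⁻¹ ∈ D

/-- `D` meets `E` only in `1` -/
def Avoids (D E : Finset X) : Prop := ∀ δ ∈ D, δ ∈ E → δ = 1

/-- **The core.** -/
theorem core (hfin : ∀ τ τ' : Rep, {χ : X | χ • τ = τ'}.Finite) (D : J → Finset X) (hD : ∀ j, IsGrp (D j))
    (hrich : ∀ E : Finset X, ∃ j, Avoids (D j) E) (C : J → Multiset Rep)
    (hinv : ∀ j, ∀ δ ∈ D j, tr δ (C j) = C j)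
    (hC : ∀ j k, ∑ δ ∈ D k, tr δ (C j) = ∑ δ ∈ D j, tr δ (C k)) :
    ∃ (B : Multiset Rep) (E : Finset X), ∀ j, Avoids (D j) E → C j = ∑ δ ∈ D j, tr δ B := by
  classical
  obtain ⟨j0, -⟩ := hrich ∅
  set S : Finset Rep := (C j0).toFinset with hS
  -- the characters which carry an element of `S` to an element of `S`
  have hEfin : {χ : X | ∃ τ ∈ S, ∃ τ' ∈ S, χ • τ = τ'}.Finite := by
    have : {χ : X | ∃ τ ∈ S, ∃ τ' ∈ S, χ • τ = τ'} = ⋃ τ ∈ S, ⋃ τ' ∈ S, {χ : X | χ • τ = τ'} := by
      ext χ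
      simp only [Set.mem_ofPred_eq, Set.mem_iUnion, exists_prop]
    rw [this]
    exact S.finite_toSet.biUnion fun τ _ => S.finite_toSet.biUnion fun τ' _ => hfin τ τ'
  set E : Finset X := hEfin.toFinset with hE
  have hEmem : ∀ χ : X, χ ∈ E ↔ ∃ τ ∈ S, ∃ τ' ∈ S, χ • τ = τ' := by
    intro χ
    rw [hE, Set.Finite.mem_toFinset]
    rfl
  have hsupp : ∀ j, ∀ π ∈ C j, ∃ δ ∈ D j, δ⁻¹ • π ∈ S := by
    intro j π hπ
    have h1 : π ∈ ∑ δ ∈ D j0, tr δ (C j) := by
      rw [Multiset.mem_sum]
      exact ⟨1, (hD j0).one_mem, by rwa [tr_one]⟩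
    rw [hC j j0, Multiset.mem_sum] at h1
    obtain ⟨δ, hδ, h2⟩ := h1
    exact ⟨δ, hδ, Multiset.mem_toFinset.2 (mem_tr.1 h2)⟩
  -- the part of `C j` in `S`
  let B : J → Multiset Rep := fun j => (C j).filter fun τ => τ ∈ S
  have hBS : ∀ j τ, τ ∈ B j → τ ∈ S := fun j τ h => (Multiset.mem_filter.1 h).2
  have hcountB : ∀ j τ, Multiset.count τ (B j) = if τ ∈ S then Multiset.count τ (C j) else 0 := by
    intro j τ
    change Multiset.count τ ((C j).filter fun τ => τ ∈ S) = _
    rw [Multiset.count_filter]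
  have hmain : ∀ j, Avoids (D j) E → C j = ∑ δ ∈ D j, tr δ (B j) := by
    intro j hj
    refine Multiset.ext.2 fun π => ?_
    rw [Multiset.count_sum']
    have h1 : ∀ δ ∈ D j, Multiset.count π (tr δ (B j)) = if δ⁻¹ • π ∈ S then Multiset.count π (C j) else 0 := by
      intro δ hδ
      rw [count_tr, hcountB]
      congr 1
      rw [← count_tr, hinv j δ hδ]
    rw [Finset.sum_congr rfl h1]
    by_cases hπ : π ∈ C j
    · obtain ⟨δ, hδ, h2⟩ := hsupp j π hπ
      rw [Finset.sum_eq_single_of_mem δ hδ, if_pos h2]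
      intro ε hε hne
      refine if_neg fun h3 => hne ?_
      have h4 : ε⁻¹ * δ ∈ E := by
        rw [hEmem]
        refine ⟨δ⁻¹ • π, h2, ε⁻¹ • π, h3, ?_⟩
        rw [mul_smul, smul_inv_smul]
      have h5 := hj _ ((hD j).mul_mem _ ((hD j).inv_mem _ hε) _ hδ) h4
      exact (inv_mul_eq_one.1 h5)
    · rw [Multiset.count_eq_zero_of_notMem hπ]
      simp
  -- comparison of two indices
  have hcmp : ∀ j k, Avoids (D j) E → Avoids (D k) E → (∀ δ ∈ D j, ∀ ε ∈ D k, δ * ε ∈ E ∨ δ * ε = 1 → δ = 1 ∧ ε = 1) →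
      B j = B k := by
    intro j k hj hk hjk
    have hone : ∀ (i : J), ∀ τ ∈ S, Multiset.count τ (∑ δ ∈ D j, ∑ ε ∈ D k, tr (δ * ε) (B i)) = Multiset.count τ (B i) := by
      intro i τ hτ
      rw [Multiset.count_sum']
      rw [Finset.sum_eq_single_of_mem 1 (hD j).one_mem, Multiset.count_sum',
        Finset.sum_eq_single_of_mem 1 (hD k).one_mem, mul_one, tr_one]
      · intro ε hε hne
        rw [count_tr]
        refine Multiset.count_eq_zero_of_notMem fun h => hne ?_
        refine (hjk 1 (hD j).one_mem ε hε (Or.inl ?_)).2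
        rw [hEmem]
        exact ⟨_, hBS i _ h, τ, hτ, smul_inv_smul _ _⟩
      · intro δ hδ hne
        rw [Multiset.count_sum']
        refine Finset.sum_eq_zero fun ε hε => ?_
        rw [count_tr]
        refine Multiset.count_eq_zero_of_notMem fun h => hne ?_
        refine (hjk δ hδ ε hε (Or.inl ?_)).1
        rw [hEmem]
        exact ⟨_, hBS i _ h, τ, hτ, smul_inv_smul _ _⟩
    have h1 : ∑ δ ∈ D j, ∑ ε ∈ D k, tr (δ * ε) (B j) = ∑ δ ∈ D j, ∑ ε ∈ D k, tr (δ * ε) (B k) := by
      have h2 : ∑ ε ∈ D k, tr ε (C j) = ∑ δ ∈ D j, ∑ ε ∈ D k, tr (δ * ε) (B j) := by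
        rw [Finset.sum_comm]
        refine Finset.sum_congr rfl fun ε _ => ?_
        conv_lhs => rw [hmain j hj]
        rw [tr_sum]
        refine Finset.sum_congr rfl fun δ _ => ?_
        rw [tr_tr, mul_comm]
      have h3 : ∑ δ ∈ D j, tr δ (C k) = ∑ δ ∈ D j, ∑ ε ∈ D k, tr (δ * ε) (B k) := by
        refine Finset.sum_congr rfl fun δ _ => ?_
        conv_lhs => rw [hmain k hk]
        rw [tr_sum]
        refine Finset.sum_congr rfl fun ε _ => ?_
        rw [tr_tr]
      rw [← h2, ← h3, hC j k]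
    refine Multiset.ext.2 fun τ => ?_
    by_cases hτ : τ ∈ S
    · rw [← hone j τ hτ, ← hone k τ hτ, h1]
    · rw [hcountB, hcountB, if_neg hτ, if_neg hτ]
  -- any two good indices have the same `B`
  have hsame : ∀ j k, Avoids (D j) E → Avoids (D k) E → B j = B k := by
    intro j k hj hk
    obtain ⟨l, hl⟩ := hrich (E ∪ (D j ∪ D k) ∪ (E ×ˢ (D j ∪ D k)).image fun p => p.1 * p.2⁻¹)
    have hlE : Avoids (D l) E := fun δ hδ h => hl δ hδ (by
      rw [Finset.mem_union, Finset.mem_union]; exact Or.inl (Or.inl h))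
    have hstep : ∀ i, (D i ⊆ D j ∪ D k) → Avoids (D i) E → B i = B l := by
      intro i hi hiE
      refine hcmp i l hiE hlE fun δ hδ ε hε h => ?_
      have h1 : ε = 1 := by
        rcases h with h | h
        · refine hl ε hε ?_
          rw [Finset.mem_union]
          right
          rw [Finset.mem_image]
          refine ⟨(δ * ε, δ), Finset.mem_product.2 ⟨h, hi hδ⟩, ?_⟩
          simp only
          rw [mul_comm δ ε, mul_inv_cancel_right]
        · refine hl ε hε ?_
          rw [Finset.mem_union, Finset.mem_union]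
          left; right
          rw [← inv_eq_of_mul_eq_one_right h]
          exact hi ((hD i).inv_mem _ hδ)
      subst h1
      rw [mul_one] at h
      rcases h with h | h
      · exact ⟨hiE δ hδ h, rfl⟩
      · exact ⟨h, rfl⟩
    rw [hstep j Finset.subset_union_left hj, hstep k Finset.subset_union_right hk]
  obtain ⟨j1, hj1⟩ := hrich E
  refine ⟨B j1, E, fun j hj => ?_⟩
  rw [hsame j1 j hj1 hj]
  exact hmain j hj

end Run7.h55.KD
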