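import Mathlib
import Pool.Agent.Run7.h55.KD.Core

/-!
# Descent through finite groups of characters: automorphic data with ramification
-/

set_option autoImplicit false

open Finset

namespace Run7.h55.KD

/-- The cuspidal automorphic representations of the groups `GL(m, 𝔸)`, `m ≥ 1`, of a number field `K`. Here `P` is a set
of finite places of `K`, which contains almost all of them, and `X` is the group of the quasi-characters of `𝔸ˣ / Kˣ`. -/
structure Cuspidals (P X : Type) [CommGroup X] where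
  /-- the value of a quasi-character at a fixed uniformizer at `v` -/
  value : X →* (P → ℂˣ)
  /-- the places at which a quasi-character is ramified -/
  ramX : X → Set P
  ramX_finite : ∀ χ, (ramX χ).Finite
  /-- the cuspidal automorphic representations (not necessarily unitary) -/
  Rep : Type
  /-- the number `m` -/
  deg : Rep → ℕ
  /-- the places at which a representation is ramified -/
  ram : Rep → Set P
  ram_finite : ∀ π, (ram π).Finite
  /-- the Satake parameter (without meaning at the places at which `π` is ramified) -/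
  sat : Rep → P → Multiset ℂˣ
  card_sat : ∀ π v, v ∉ ram π → Multiset.card (sat π v) = deg π
  /-- the twist by a quasi-character -/
  twist : X → Rep → Rep
  ram_twist : ∀ χ π, ram (twist χ π) ⊆ ramX χ ∪ ram π
  sat_twist : ∀ χ π v, v ∉ ramX χ → v ∉ ram π → sat (twist χ π) v = (sat π v).map fun β => value χ v * β
  /-- Jacquet and Shalika: the Satake parameters of an isobaric sum at almost all places determine its constituents -/
  isobaric : ∀ S T : Multiset Rep,
    {v | (S.map fun π => sat π v).sum ≠ (T.map fun π => sat π v).sum}.Finite → S = T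
  /-- only finitely many twists of `π` are isomorphic to `π'` -/
  finite_twists : ∀ π π', {χ | twist χ π = π'}.Finite

variable {P X : Type} [CommGroup X]

/-- the multiset `a A` -/
def scale (a : ℂˣ) (A : Multiset ℂˣ) : Multiset ℂˣ := A.map fun β => a * β

theorem scale_scale (a b : ℂˣ) (A : Multiset ℂˣ) : scale a (scale b A) = scale (a * b) A := by
  unfold scale
  rw [Multiset.map_map]
  refine Multiset.map_congr rfl fun β _ => ?_
  simp only [Function.comp_apply, mul_assoc]

theorem scale_one (A : Multiset ℂˣ) : scale 1 A = A := by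
  unfold scale
  simp

theorem scale_zero (a : ℂˣ) : scale a 0 = 0 := rfl

theorem scale_add (a : ℂˣ) (A B : Multiset ℂˣ) : scale a (A + B) = scale a A + scale a B := Multiset.map_add _ _ _

theorem scale_sum {J : Type} (a : ℂˣ) (s : Finset J) (A : J → Multiset ℂˣ) :
    scale a (∑ j ∈ s, A j) = ∑ j ∈ s, scale a (A j) := by
  classical
  refine Finset.induction_on s ?_ fun j s hj ih => ?_
  · rw [Finset.sum_empty, Finset.sum_empty, scale_zero]
  · rw [Finset.sum_insert hj, Finset.sum_insert hj, scale_add, ih]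

theorem card_scale (a : ℂˣ) (A : Multiset ℂˣ) : Multiset.card (scale a A) = Multiset.card A := Multiset.card_map _ _

variable (𝒜 : Cuspidals P X)

/-- the Satake parameter at `v` of the isobaric sum of the representations in `C` -/
def param (C : Multiset 𝒜.Rep) (v : P) : Multiset ℂˣ := (C.map fun π => 𝒜.sat π v).sum

theorem param_zero (v : P) : param 𝒜 0 v = 0 := rfl

theorem param_singleton (π : 𝒜.Rep) (v : P) : param 𝒜 {π} v = 𝒜.sat π v := by
  unfold param
  rw [Multiset.map_singleton, Multiset.sum_singleton]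

theorem param_add (C D : Multiset 𝒜.Rep) (v : P) : param 𝒜 (C + D) v = param 𝒜 C v + param 𝒜 D v := by
  unfold param
  rw [Multiset.map_add, Multiset.sum_add]

theorem param_cons (π : 𝒜.Rep) (C : Multiset 𝒜.Rep) (v : P) : param 𝒜 (π ::ₘ C) v = 𝒜.sat π v + param 𝒜 C v := by
  unfold param
  rw [Multiset.map_cons, Multiset.sum_cons]

theorem param_sum {J : Type} (s : Finset J) (C : J → Multiset 𝒜.Rep) (v : P) :
    param 𝒜 (∑ j ∈ s, C j) v = ∑ j ∈ s, param 𝒜 (C j) v := by
  classical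
  refine Finset.induction_on s ?_ fun j s hj ih => ?_
  · rw [Finset.sum_empty, Finset.sum_empty, param_zero]
  · rw [Finset.sum_insert hj, Finset.sum_insert hj, param_add, ih]

/-- the places at which some constituent is ramified -/
def ramM (C : Multiset 𝒜.Rep) : Set P := {v | ∃ π ∈ C, v ∈ 𝒜.ram π}

theorem ramM_finite (C : Multiset 𝒜.Rep) : (ramM 𝒜 C).Finite := by
  classical
  have : ramM 𝒜 C = ⋃ π ∈ C.toFinset, 𝒜.ram π := by
    ext v
    simp [ramM]
  rw [this]
  exact C.toFinset.finite_toSet.biUnion fun π _ => 𝒜.ram_finite π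

theorem param_twist {χ : X} {C : Multiset 𝒜.Rep} {v : P} (hχ : v ∉ 𝒜.ramX χ) (hC : ∀ π ∈ C, v ∉ 𝒜.ram π) :
    param 𝒜 (C.map (𝒜.twist χ)) v = scale (𝒜.value χ v) (param 𝒜 C v) := by
  induction C using Multiset.induction_on with
  | empty => rw [Multiset.map_zero, param_zero, scale_zero]
  | cons π C ih =>
    rw [Multiset.map_cons, param_cons, param_cons, scale_add,
      ih fun π' h => hC π' (Multiset.mem_cons_of_mem h), 𝒜.sat_twist _ _ _ hχ (hC π (Multiset.mem_cons_self _ _))]
    rfl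

theorem ext_param {S T : Multiset 𝒜.Rep} {F : Set P} (hF : F.Finite) (h : ∀ v, v ∉ F → param 𝒜 S v = param 𝒜 T v) :
    S = T := by
  refine 𝒜.isobaric S T (hF.subset fun v hv => ?_)
  by_contra hcon
  exact hv (h v hcon)

theorem ext_sat {π π' : 𝒜.Rep} {F : Set P} (hF : F.Finite) (h : ∀ v, v ∉ F → 𝒜.sat π v = 𝒜.sat π' v) : π = π' := by
  refine Multiset.singleton_inj.1 (ext_param 𝒜 hF fun v hv => ?_)
  rw [param_singleton, param_singleton, h v hv]

theorem twist_one (π : 𝒜.Rep) : 𝒜.twist 1 π = π := by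
  refine ext_sat 𝒜 ((𝒜.ramX_finite 1).union (𝒜.ram_finite π)) fun v hv => ?_
  rw [Set.mem_union, not_or] at hv
  rw [𝒜.sat_twist _ _ _ hv.1 hv.2, map_one]
  exact scale_one _

theorem twist_mul (χ η : X) (π : 𝒜.Rep) : 𝒜.twist (χ * η) π = 𝒜.twist χ (𝒜.twist η π) := by
  refine ext_sat 𝒜 (((𝒜.ramX_finite (χ * η)).union ((𝒜.ramX_finite χ).union (𝒜.ramX_finite η))).union
    (𝒜.ram_finite π)) fun v hv => ?_
  simp only [Set.mem_union, not_or] at hv
  obtain ⟨⟨h1, h2, h3⟩, h4⟩ := hv
  have h5 : v ∉ 𝒜.ram (𝒜.twist η π) := fun h => by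
    rcases 𝒜.ram_twist η π h with h | h
    · exact h3 h
    · exact h4 h
  rw [𝒜.sat_twist _ _ _ h1 h4, 𝒜.sat_twist _ _ _ h2 h5, 𝒜.sat_twist _ _ _ h3 h4]
  exact (by rw [map_mul]; exact (scale_scale _ _ _).symm)

/-- the action of the quasi-characters by twists -/
def action : MulAction X 𝒜.Rep where
  smul := 𝒜.twist
  one_smul := twist_one 𝒜
  mul_smul := twist_mul 𝒜

/-- the sum `∑_{δ ∈ D} δ(v) A` -/
def spread (D : Finset X) (v : P) (A : Multiset ℂˣ) : Multiset ℂˣ := ∑ δ ∈ D, scale (𝒜.value δ v) A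

theorem spread_smul {D : Finset X} (hD : IsGrp D) {ε : X} (hε : ε ∈ D) (v : P) (A : Multiset ℂˣ) :
    scale (𝒜.value ε v) (spread 𝒜 D v A) = spread 𝒜 D v A := by
  unfold spread
  rw [scale_sum]
  refine Finset.sum_bij' (fun δ _ => ε * δ) (fun δ _ => ε⁻¹ * δ) ?_ ?_ ?_ ?_ ?_
  · exact fun δ hδ => hD.mul_mem _ hε _ hδ
  · exact fun δ hδ => hD.mul_mem _ (hD.inv_mem _ hε) _ hδ
  · exact fun δ _ => inv_mul_cancel_left _ _
  · exact fun δ _ => mul_inv_cancel_left _ _
  · intro δ _
    rw [scale_scale, map_mul]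
    rfl

theorem spread_comm (D E : Finset X) (v : P) (A : Multiset ℂˣ) :
    spread 𝒜 D v (spread 𝒜 E v A) = spread 𝒜 E v (spread 𝒜 D v A) := by
  unfold spread
  have h1 : ∀ δ : X, scale (𝒜.value δ v) (∑ ε ∈ E, scale (𝒜.value ε v) A) =
      ∑ ε ∈ E, scale (𝒜.value δ v * 𝒜.value ε v) A := by
    intro δ
    rw [scale_sum]
    exact Finset.sum_congr rfl fun ε _ => scale_scale _ _ _
  have h2 : ∀ ε : X, scale (𝒜.value ε v) (∑ δ ∈ D, scale (𝒜.value δ v) A) =
      ∑ δ ∈ D, scale (𝒜.value δ v * 𝒜.value ε v) A := by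
    intro ε
    rw [scale_sum]
    exact Finset.sum_congr rfl fun δ _ => by rw [scale_scale, mul_comm]
  simp only [h1, h2]
  exact Finset.sum_comm

/-- the places at which a character in `D` is ramified -/
def ramD (D : Finset X) : Set P := {v | ∃ δ ∈ D, v ∈ 𝒜.ramX δ}

theorem ramD_finite (D : Finset X) : (ramD 𝒜 D).Finite := by
  have : ramD 𝒜 D = ⋃ δ ∈ D, 𝒜.ramX δ := by
    ext v
    simp [ramD]
  rw [this]
  exact D.finite_toSet.biUnion fun δ _ => 𝒜.ramX_finite δ

/-- the isobaric sum of the twists by the characters in `D` -/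
def norm (D : Finset X) (B : Multiset 𝒜.Rep) : Multiset 𝒜.Rep := ∑ δ ∈ D, B.map (𝒜.twist δ)

theorem param_norm {D : Finset X} {B : Multiset 𝒜.Rep} {v : P} (hD : ∀ δ ∈ D, v ∉ 𝒜.ramX δ)
    (hB : ∀ π ∈ B, v ∉ 𝒜.ram π) : param 𝒜 (norm 𝒜 D B) v = spread 𝒜 D v (param 𝒜 B v) := by
  unfold norm spread
  rw [param_sum]
  exact Finset.sum_congr rfl fun δ hδ => param_twist 𝒜 (hD δ hδ) hB

theorem ram_norm {D : Finset X} {B : Multiset 𝒜.Rep} {v : P} (hD : ∀ δ ∈ D, v ∉ 𝒜.ramX δ)
    (hB : ∀ π ∈ B, v ∉ 𝒜.ram π) : ∀ π ∈ norm 𝒜 D B, v ∉ 𝒜.ram π := by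
  intro π hπ hv
  unfold norm at hπ
  rw [Multiset.mem_sum] at hπ
  obtain ⟨δ, hδ, h1⟩ := hπ
  obtain ⟨ρ, hρ, rfl⟩ := Multiset.mem_map.1 h1
  rcases 𝒜.ram_twist δ ρ hv with h | h
  · exact hD δ hδ h
  · exact hB ρ hρ h

/-- **Descent.** If the isobaric sums `C j` have the parameters `∑_{δ ∈ D j} δ(v) A(v)` at almost all places, for a rich
collection of finite groups `D j` of characters, then there is an isobaric sum `B` with `C j = ∑_{δ ∈ D j} δ B`. -/
theorem descent {J : Type} (A : P → Multiset ℂˣ) (D : J → Finset X) (hD : ∀ j, IsGrp (D j))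
    (hrich : ∀ E : Finset X, ∃ j, Avoids (D j) E) (C : J → Multiset 𝒜.Rep)
    (hC : ∀ j, {v | param 𝒜 (C j) v ≠ spread 𝒜 (D j) v (A v)}.Finite) :
    ∃ (B : Multiset 𝒜.Rep) (E : Finset X), ∀ j, Avoids (D j) E → C j = norm 𝒜 (D j) B := by
  letI := action 𝒜
  have htw : ∀ (δ : X) (C : Multiset 𝒜.Rep), tr δ C = C.map (𝒜.twist δ) := fun _ _ => rfl
  refine core (hfin := 𝒜.finite_twists) D hD hrich C ?_ ?_
  · intro j δ hδ
    refine ext_param 𝒜 (((𝒜.ramX_finite δ).union (ramM_finite 𝒜 (C j))).union (hC j)) fun v hv => ?_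
    simp only [Set.mem_union, not_or] at hv
    obtain ⟨⟨h1, h2⟩, h3⟩ := hv
    have h3' : param 𝒜 (C j) v = spread 𝒜 (D j) v (A v) := by
      by_contra h
      exact h3 h
    rw [htw, param_twist 𝒜 h1 fun π hπ h => h2 ⟨π, hπ, h⟩, h3', spread_smul 𝒜 (hD j) hδ]
  · intro j k
    have hgen : ∀ j k, {v | param 𝒜 (∑ δ ∈ D k, tr δ (C j)) v ≠
        spread 𝒜 (D k) v (spread 𝒜 (D j) v (A v))}.Finite := by
      intro j k
      refine (((ramD_finite 𝒜 (D k)).union (ramM_finite 𝒜 (C j))).union (hC j)).subset fun v hv => ?_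
      by_contra hcon
      simp only [Set.mem_union, not_or] at hcon
      obtain ⟨⟨h1, h2⟩, h3⟩ := hcon
      have h3' : param 𝒜 (C j) v = spread 𝒜 (D j) v (A v) := by
        by_contra h
        exact h3 h
      refine hv ?_
      have h4 := param_norm 𝒜 (D := D k) (B := C j) (v := v) (fun δ hδ h => h1 ⟨δ, hδ, h⟩)
        (fun π hπ h => h2 ⟨π, hπ, h⟩)
      rw [h3'] at h4
      exact h4
    refine ext_param 𝒜 ((hgen j k).union (hgen k j)) fun v hv => ?_
    simp only [Set.mem_union, not_or] at hv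
    have h1 : param 𝒜 (∑ δ ∈ D k, tr δ (C j)) v = spread 𝒜 (D k) v (spread 𝒜 (D j) v (A v)) := by
      by_contra h
      exact hv.1 h
    have h2 : param 𝒜 (∑ δ ∈ D j, tr δ (C k)) v = spread 𝒜 (D j) v (spread 𝒜 (D k) v (A v)) := by
      by_contra h
      exact hv.2 h
    rw [h1, h2, spread_comm]

theorem spread_trivial {D : Finset X} {v : P} (h : ∀ δ ∈ D, 𝒜.value δ v = 1) (A : Multiset ℂˣ) :
    spread 𝒜 D v A = D.card • A := by
  unfold spread
  rw [Finset.sum_congr rfl fun δ hδ => by rw [h δ hδ, scale_one], Finset.sum_const]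

theorem nsmul_inj {n : ℕ} (hn : n ≠ 0) {A B : Multiset ℂˣ} (h : n • A = n • B) : A = B := by
  classical
  refine Multiset.ext.2 fun a => ?_
  have h1 := congrArg (Multiset.count a) h
  rw [Multiset.count_nsmul, Multiset.count_nsmul] at h1
  exact Nat.eq_of_mul_eq_mul_left (Nat.pos_of_ne_zero hn) h1

end Run7.h55.KD
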