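import Mathlib
import Pool.Agent.Run7.h55.KD.Auto

/-!
# Polarized Galois representations of CM fields and twists by representations of Klein four type

The setting (`CMField`), and the reduction of the automorphy of all polarized pairs to that of the totally odd ones.
-/

set_option autoImplicit false

open Finset

namespace Run7.h55.KD

/-- the products of an element of `A` and an element of `B` -/
def tens (A B : Multiset ℂˣ) : Multiset ℂˣ := (A ×ˢ B).map fun p => p.1 * p.2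

/-- the inverses -/
def invs (A : Multiset ℂˣ) : Multiset ℂˣ := A.map fun β => β⁻¹

/-- A CM field `K` with maximal totally real subfield `K⁺`, an isomorphism `ℚ̄_p ≅ ℂ`, an infinite set `P` of finite
places of `K` which do not divide `p` (all of them, for example), the set `U` of the real places `u` of `K⁺` with complex
conjugations `c_u`, the group `X` of the quasi-characters of `𝔸_Kˣ / Kˣ`, and the following data. The fields which
are propositions are known facts. The elements of `Rep` are normalised: they are the `Π = π ⊗ |det|^((1-m)/2)`, where `π`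
is a cuspidal automorphic representation of `GL(m, 𝔸_K)` as in the question; `IsAlg Π` means that `π` is algebraic. -/
structure CMField (P X U : Type) [CommGroup X] extends Cuspidals P X where
  deg_pos : ∀ π, 0 < deg π
  /-- complex conjugation on the places -/
  bar : P → P
  bar_bar : ∀ v, bar (bar v) = v
  /-- the contragredient `π^∨` -/
  dual : Rep → Rep
  /-- the conjugate `π^c` -/
  conj : Rep → Rep
  ram_dual : ∀ π v, v ∉ ram π → v ∉ ram (dual π)
  sat_dual : ∀ π v, v ∉ ram π → sat (dual π) v = invs (sat π v)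
  ram_conj : ∀ π v, bar v ∉ ram π → v ∉ ram (conj π)
  sat_conj : ∀ π v, bar v ∉ ram π → sat (conj π) v = sat π (bar v)
  /-- the quasi-characters `χ ∘ N_{K/K⁺}` -/
  norms : Subgroup X
  /-- `π` is algebraic, for `Π = π ⊗ |det|^((1-m)/2)` -/
  IsAlg : Rep → Prop
  /-- the pairs `(R, Ψ)` of the question, with `R` irreducible and potentially semi-stable, `R^∨ ≅ R^c ⊗ Ψ` -/
  Pair : Type
  /-- the dimension of `R` -/
  dim : Pair → ℕ
  /-- the places at which `R` is ramified -/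
  ramR : Pair → Set P
  ramR_finite : ∀ R, (ramR R).Finite
  /-- the eigenvalues of the Frobenius element at `v` -/
  frob : Pair → P → Multiset ℂˣ
  card_frob : ∀ R v, v ∉ ramR R → Multiset.card (frob R v) = dim R
  /-- the Hecke character `ψ` of `Ψ` restricted to `G_K` (class field theory: `Ψ` is de Rham) -/
  mult : Pair → X
  mult_mem : ∀ R, mult R ∈ norms
  polarized : ∀ R v, v ∉ ramR R → bar v ∉ ramR R → v ∉ ramX (mult R) →
    invs (frob R v) = (frob R (bar v)).map fun β => value (mult R) v * β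
  /-- the sign of `(R, Ψ)` at the real place `u`: the sign of a pairing `J` with
  `ᵗR(g) J R(c_u g c_u) = Ψ(g)⁻¹ J` for all `g ∈ G_K` -/
  sign : Pair → U → ℤˣ
  /-- the quasi-characters `χ` with `R ⊗ χ ≅ R` -/
  selfTwist : Pair → Finset X
  /-- the two-dimensional representations `τ` of `G_{K⁺}` with finite image whose projective image, also that of
  `G_K`, is a Klein four group -/
  Tw : Type
  /-- the four characters `δ` of `G_K` with `τ ⊗ δ ≅ τ` -/
  grp : Tw → Finset X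
  isGrp : ∀ τ, IsGrp (grp τ)
  grp_sq : ∀ τ, ∀ δ ∈ grp τ, δ * δ = 1
  /-- the places of `K` at which `τ` is ramified -/
  ramT : Tw → Set P
  ramT_finite : ∀ τ, (ramT τ).Finite
  ramX_grp : ∀ τ, ∀ δ ∈ grp τ, ramX δ ⊆ ramT τ
  grp_bar : ∀ τ, ∀ δ ∈ grp τ, ∀ v, v ∉ ramT τ → value δ (bar v) = value δ v
  /-- the eigenvalues of `τ(Frob_v)` -/
  satT : Tw → P → Multiset ℂˣ
  card_satT : ∀ τ v, v ∉ ramT τ → Multiset.card (satT τ v) = 2
  satT_twist : ∀ τ, ∀ δ ∈ grp τ, ∀ v, v ∉ ramT τ → (satT τ v).map (fun β => value δ v * β) = satT τ v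
  /-- `τ ⊗ τ^∨ = ⊕ δ` -/
  satT_dual : ∀ τ v, v ∉ ramT τ → tens (satT τ v) (invs (satT τ v)) = (grp τ).val.map fun δ => value δ v
  /-- the number `- det τ(c_u)` -/
  par : Tw → U → ℤˣ
  /-- there are many `τ` (weak approximation, Grunwald-Wang, and the theorem of Tate on projective representations) -/
  rich : ∀ (s : U → ℤˣ) (E : Finset X) (v : P), ∃ τ, par τ = s ∧ Avoids (grp τ) E ∧ v ∉ ramT τ ∧
    ∀ δ ∈ grp τ, value δ v = 1
  /-- `(R ⊗ τ, Ψ det τ⁻¹)` is a pair -/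
  tensor : ∀ R τ, Avoids (grp τ) (selfTwist R) → ∃ R' : Pair, dim R' = 2 * dim R ∧ ramR R' ⊆ ramR R ∪ ramT τ ∧
    (∀ v, v ∉ ramR R → v ∉ ramT τ → frob R' v = tens (frob R v) (satT τ v)) ∧ ∀ u, sign R' u = sign R u * par τ u
  /-- the cuspidal constituents of `π ⊠ τ` (automorphic induction, Arthur and Clozel) -/
  times : Tw → Rep → Multiset Rep
  times_spec : ∀ τ π v, v ∉ ramT τ → (∀ π' ∈ times τ π, v ∉ ram π') →
    v ∉ ram π ∧ ((times τ π).map fun π' => sat π' v).sum = tens (sat π v) (satT τ v)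
  /-- the cuspidal constituents of `π ⊠ τ^∨` -/
  timesDual : Tw → Rep → Multiset Rep
  timesDual_spec : ∀ τ π v, v ∉ ramT τ → (∀ π' ∈ timesDual τ π, v ∉ ram π') →
    v ∉ ram π ∧ ((timesDual τ π).map fun π' => sat π' v).sum = tens (sat π v) (invs (satT τ v))
  /-- at the complex places `π ⊠ τ` is `π ⊞ π` -/
  alg_times : ∀ τ π π', times τ π = {π'} → IsAlg π' → IsAlg π

variable {P X U : Type} [CommGroup X]

/-! ### multisets -/

theorem tens_eq (A B : Multiset ℂˣ) : tens A B = (B.map fun b => scale b A).sum := by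
  induction B using Multiset.induction_on with
  | empty => simp [tens]
  | cons b B ih =>
    rw [Multiset.map_cons, Multiset.sum_cons, ← ih]
    unfold tens scale
    rw [Multiset.product_cons, Multiset.map_add, Multiset.map_map]
    congr 1
    exact Multiset.map_congr rfl fun a _ => mul_comm _ _

theorem tens_zero_right (A : Multiset ℂˣ) : tens A 0 = 0 := by simp [tens]

theorem tens_zero_left (B : Multiset ℂˣ) : tens 0 B = 0 := by simp [tens]

theorem tens_cons_right (A : Multiset ℂˣ) (b : ℂˣ) (B : Multiset ℂˣ) : tens A (b ::ₘ B) = scale b A + tens A B := by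
  rw [tens_eq, tens_eq, Multiset.map_cons, Multiset.sum_cons]

theorem tens_add_right (A B B' : Multiset ℂˣ) : tens A (B + B') = tens A B + tens A B' := by
  rw [tens_eq, tens_eq, tens_eq, Multiset.map_add, Multiset.sum_add]

theorem tens_add_left (A A' B : Multiset ℂˣ) : tens (A + A') B = tens A B + tens A' B := by
  unfold tens
  rw [Multiset.add_product, Multiset.map_add]

theorem tens_scale_left (a : ℂˣ) (A B : Multiset ℂˣ) : tens (scale a A) B = scale a (tens A B) := by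
  induction B using Multiset.induction_on with
  | empty => rw [tens_zero_right, tens_zero_right, scale_zero]
  | cons b B ih => rw [tens_cons_right, tens_cons_right, ih, scale_add, scale_scale, scale_scale, mul_comm]

theorem tens_scale_right (a : ℂˣ) (A B : Multiset ℂˣ) : tens A (scale a B) = scale a (tens A B) := by
  induction B using Multiset.induction_on with
  | empty => rw [scale_zero, tens_zero_right, scale_zero]
  | cons b B ih =>
    have h1 : scale a (b ::ₘ B) = (a * b) ::ₘ scale a B := Multiset.map_cons _ _ _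
    rw [h1, tens_cons_right, tens_cons_right, ih, scale_add, scale_scale]

theorem tens_assoc (A B C : Multiset ℂˣ) : tens (tens A B) C = tens A (tens B C) := by
  induction C using Multiset.induction_on with
  | empty => rw [tens_zero_right, tens_zero_right, tens_zero_right]
  | cons c C ih => rw [tens_cons_right, tens_cons_right, tens_add_right, tens_scale_right, ih]

theorem tens_comm (A B : Multiset ℂˣ) : tens A B = tens B A := by
  induction B using Multiset.induction_on with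
  | empty => rw [tens_zero_right, tens_zero_left]
  | cons b B ih =>
    rw [tens_cons_right, ih, ← Multiset.singleton_add b B, tens_add_left]
    congr 1
    unfold tens scale
    rw [← Multiset.cons_zero b, Multiset.cons_product, Multiset.zero_product, add_zero, Multiset.map_map]
    rfl

theorem card_tens (A B : Multiset ℂˣ) : Multiset.card (tens A B) = Multiset.card A * Multiset.card B := by
  unfold tens
  rw [Multiset.card_map, Multiset.card_product]

theorem invs_scale (a : ℂˣ) (A : Multiset ℂˣ) : invs (scale a A) = scale a⁻¹ (invs A) := by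
  unfold invs scale
  rw [Multiset.map_map, Multiset.map_map]
  refine Multiset.map_congr rfl fun β _ => ?_
  simp only [Function.comp_apply, mul_inv]

theorem invs_sum {J : Type} (s : Finset J) (A : J → Multiset ℂˣ) : invs (∑ j ∈ s, A j) = ∑ j ∈ s, invs (A j) := by
  classical
  refine Finset.induction_on s ?_ fun j s hj ih => ?_
  · rfl
  · rw [Finset.sum_insert hj, Finset.sum_insert hj, ← ih]
    exact Multiset.map_add _ _ _

theorem spread_eq_tens (𝒜 : Cuspidals P X) (D : Finset X) (v : P) (A : Multiset ℂˣ) :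
    spread 𝒜 D v A = tens A (D.val.map fun δ => 𝒜.value δ v) := by
  rw [tens_eq, Multiset.map_map]
  rfl

theorem spread_scale (𝒜 : Cuspidals P X) (D : Finset X) (v : P) (a : ℂˣ) (A : Multiset ℂˣ) :
    spread 𝒜 D v (scale a A) = scale a (spread 𝒜 D v A) := by
  rw [spread_eq_tens, spread_eq_tens, tens_scale_left]

theorem card_spread (𝒜 : Cuspidals P X) (D : Finset X) (v : P) (A : Multiset ℂˣ) :
    Multiset.card (spread 𝒜 D v A) = Multiset.card A * D.card := by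
  rw [spread_eq_tens, card_tens, Multiset.card_map]
  rfl

/-! ### the reduction -/

variable (𝒦 : CMField P X U)

theorem tens_tens_dual {τ : 𝒦.Tw} {v : P} (hv : v ∉ 𝒦.ramT τ) (A : Multiset ℂˣ) :
    tens (tens A (𝒦.satT τ v)) (invs (𝒦.satT τ v)) = spread 𝒦.toCuspidals (𝒦.grp τ) v A := by
  rw [tens_assoc, 𝒦.satT_dual τ v hv, spread_eq_tens]

theorem spread_tens {τ : 𝒦.Tw} {v : P} (hv : v ∉ 𝒦.ramT τ) (A : Multiset ℂˣ) :
    spread 𝒦.toCuspidals (𝒦.grp τ) v (tens A (𝒦.satT τ v)) = (𝒦.grp τ).card • tens A (𝒦.satT τ v) := by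
  unfold spread
  have h1 : ∀ δ ∈ 𝒦.grp τ, scale (𝒦.value δ v) (tens A (𝒦.satT τ v)) = tens A (𝒦.satT τ v) := by
    intro δ hδ
    rw [← tens_scale_right]
    congr 1
    exact 𝒦.satT_twist τ δ hδ v hv
  rw [Finset.sum_congr rfl h1, Finset.sum_const]

theorem card_grp_ne (τ : 𝒦.Tw) : (𝒦.grp τ).card ≠ 0 :=
  Finset.card_ne_zero_of_mem (𝒦.isGrp τ).one_mem

/-- the constituents of `B ⊠ τ` -/
def timesM (τ : 𝒦.Tw) (B : Multiset 𝒦.Rep) : Multiset 𝒦.Rep := (B.map (𝒦.times τ)).sum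

theorem mem_timesM {τ : 𝒦.Tw} {B : Multiset 𝒦.Rep} {π ρ : 𝒦.Rep} (hπ : π ∈ B) (hρ : ρ ∈ 𝒦.times τ π) :
    ρ ∈ timesM 𝒦 τ B := by
  unfold timesM
  obtain ⟨B', rfl⟩ := Multiset.exists_cons_of_mem hπ
  rw [Multiset.map_cons, Multiset.sum_cons, Multiset.mem_add]
  exact Or.inl hρ

theorem param_timesM {τ : 𝒦.Tw} {v : P} (hv : v ∉ 𝒦.ramT τ) (B : Multiset 𝒦.Rep)
    (hB : ∀ ρ ∈ timesM 𝒦 τ B, v ∉ 𝒦.ram ρ) :
    param 𝒦.toCuspidals (timesM 𝒦 τ B) v = tens (param 𝒦.toCuspidals B v) (𝒦.satT τ v) := by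
  induction B using Multiset.induction_on with
  | empty => rw [param_zero, tens_zero_left]; rfl
  | cons π B ih =>
    have h1 : timesM 𝒦 τ (π ::ₘ B) = 𝒦.times τ π + timesM 𝒦 τ B := by
      unfold timesM
      rw [Multiset.map_cons, Multiset.sum_cons]
    rw [h1] at hB ⊢
    rw [param_add, param_cons, tens_add_left, ih fun ρ hρ => hB ρ (Multiset.mem_add.2 (Or.inr hρ))]
    congr 1
    exact (𝒦.times_spec τ π v hv fun ρ hρ => hB ρ (Multiset.mem_add.2 (Or.inl hρ))).2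

/-- the index set: the twists of the right parity in general position -/
def Good (R : 𝒦.Pair) : Type := {τ : 𝒦.Tw // 𝒦.par τ = 𝒦.sign R ∧ Avoids (𝒦.grp τ) (𝒦.selfTwist R)}

theorem Avoids.union {D E F : Finset X} [DecidableEq X] (h : Avoids D (E ∪ F)) : Avoids D E ∧ Avoids D F :=
  ⟨fun δ hδ h1 => h δ hδ (Finset.mem_union_left _ h1), fun δ hδ h1 => h δ hδ (Finset.mem_union_right _ h1)⟩

theorem good_exists (R : 𝒦.Pair) (E : Finset X) (v : P) : ∃ τ : Good 𝒦 R, Avoids (𝒦.grp τ.1) E ∧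
    v ∉ 𝒦.ramT τ.1 ∧ ∀ δ ∈ 𝒦.grp τ.1, 𝒦.value δ v = 1 := by
  classical
  obtain ⟨τ, h1, h2, h3, h4⟩ := 𝒦.rich (𝒦.sign R) (E ∪ 𝒦.selfTwist R) v
  exact ⟨⟨τ, h1, h2.union.2⟩, h2.union.1, h3, h4⟩

/-- **The key lemma.** -/
theorem key [Infinite P] (R : 𝒦.Pair) (Q : Good 𝒦 R → 𝒦.Rep)
    (hQ : ∀ τ, {v | 𝒦.sat (Q τ) v ≠ tens (𝒦.frob R v) (𝒦.satT τ.1 v)}.Finite) :
    ∃ (π : 𝒦.Rep) (E : Finset X), ∀ τ : Good 𝒦 R, Avoids (𝒦.grp τ.1) E →
      𝒦.timesDual τ.1 (Q τ) = norm 𝒦.toCuspidals (𝒦.grp τ.1) {π} ∧ 𝒦.times τ.1 π = {Q τ} := by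
  classical
  have hv0 : Nonempty P := inferInstance
  have hC : ∀ τ : Good 𝒦 R, {v | param 𝒦.toCuspidals (𝒦.timesDual τ.1 (Q τ)) v ≠
      spread 𝒦.toCuspidals (𝒦.grp τ.1) v (𝒦.frob R v)}.Finite := by
    intro τ
    refine (((hQ τ).union (𝒦.ramT_finite τ.1)).union
      (ramM_finite 𝒦.toCuspidals (𝒦.timesDual τ.1 (Q τ)))).subset fun v hv => ?_
    by_contra hcon
    simp only [Set.mem_union, not_or] at hcon
    obtain ⟨⟨h1, h2⟩, h3⟩ := hcon
    have h1' : 𝒦.sat (Q τ) v = tens (𝒦.frob R v) (𝒦.satT τ.1 v) := by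
      by_contra h
      exact h1 h
    refine hv ?_
    have h4 := (𝒦.timesDual_spec τ.1 (Q τ) v h2 fun ρ hρ h => h3 ⟨ρ, hρ, h⟩).2
    have h5 : param 𝒦.toCuspidals (𝒦.timesDual τ.1 (Q τ)) v = tens (𝒦.sat (Q τ) v) (invs (𝒦.satT τ.1 v)) := h4
    rw [h5, h1', tens_tens_dual 𝒦 h2]
  obtain ⟨B, E, hB⟩ := descent 𝒦.toCuspidals (J := Good 𝒦 R) (fun v => 𝒦.frob R v) (fun τ => 𝒦.grp τ.1)
    (fun τ => 𝒦.isGrp τ.1) (fun E => by
      obtain ⟨τ, h, -⟩ := good_exists 𝒦 R E hv0.some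
      exact ⟨τ, h⟩) (fun τ => 𝒦.timesDual τ.1 (Q τ)) hC
  -- `B ⊠ τ = Q τ`
  have htimes : ∀ τ : Good 𝒦 R, Avoids (𝒦.grp τ.1) E → timesM 𝒦 τ.1 B = {Q τ} := by
    intro τ hτ
    refine ext_param 𝒦.toCuspidals (((((hQ τ).union (𝒦.ramT_finite τ.1)).union
      (ramM_finite 𝒦.toCuspidals (timesM 𝒦 τ.1 B))).union (hC τ)).union
      (ramM_finite 𝒦.toCuspidals B)) fun v hv => ?_
    simp only [Set.mem_union, not_or] at hv
    obtain ⟨⟨⟨⟨h1, h2⟩, h3⟩, h4⟩, h5⟩ := hv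
    have h1' : 𝒦.sat (Q τ) v = tens (𝒦.frob R v) (𝒦.satT τ.1 v) := by
      by_contra h
      exact h1 h
    have h4' : param 𝒦.toCuspidals (𝒦.timesDual τ.1 (Q τ)) v =
        spread 𝒦.toCuspidals (𝒦.grp τ.1) v (𝒦.frob R v) := by
      by_contra h
      exact h4 h
    have h6 : param 𝒦.toCuspidals (timesM 𝒦 τ.1 B) v = tens (param 𝒦.toCuspidals B v) (𝒦.satT τ.1 v) :=
      param_timesM 𝒦 h2 B fun ρ hρ h => h3 ⟨ρ, hρ, h⟩
    have h7 : spread 𝒦.toCuspidals (𝒦.grp τ.1) v (param 𝒦.toCuspidals B v) =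
        spread 𝒦.toCuspidals (𝒦.grp τ.1) v (𝒦.frob R v) := by
      rw [← h4', hB τ hτ, param_norm 𝒦.toCuspidals (fun δ hδ h => h2 (𝒦.ramX_grp τ.1 δ hδ h))
        fun ρ hρ h => h5 ⟨ρ, hρ, h⟩]
    rw [h6, param_singleton, h1']
    refine nsmul_inj (card_grp_ne 𝒦 τ.1) ?_
    rw [← spread_tens 𝒦 h2, ← spread_tens 𝒦 h2]
    have h8 : ∀ A : Multiset ℂˣ, spread 𝒦.toCuspidals (𝒦.grp τ.1) v (tens A (𝒦.satT τ.1 v)) =
        tens (spread 𝒦.toCuspidals (𝒦.grp τ.1) v A) (𝒦.satT τ.1 v) := by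
      intro A
      rw [spread_eq_tens, spread_eq_tens, tens_assoc, tens_assoc, tens_comm (𝒦.satT τ.1 v)]
    rw [h8, h8, h7]
  -- `B` has one element
  obtain ⟨τ₀, hτ₀, -⟩ := good_exists 𝒦 R E hv0.some
  have hne : ∀ π, 𝒦.times τ₀.1 π ≠ 0 := by
    intro π h0
    obtain ⟨v, hv⟩ := ((𝒦.ramT_finite τ₀.1).union (𝒦.ram_finite π)).infinite_compl.nonempty
    simp only [Set.mem_compl_iff, Set.mem_union, not_or] at hv
    have h1 := (𝒦.times_spec τ₀.1 π v hv.1 (by rw [h0]; simp)).2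
    rw [h0, Multiset.map_zero, Multiset.sum_zero] at h1
    have h2 := congrArg Multiset.card h1
    rw [card_tens, 𝒦.card_satT τ₀.1 v hv.1, 𝒦.card_sat π v hv.2, Multiset.card_zero] at h2
    have := 𝒦.deg_pos π
    omega
  have hcard : Multiset.card B ≤ Multiset.card (timesM 𝒦 τ₀.1 B) := by
    have : ∀ B : Multiset 𝒦.Rep, Multiset.card B ≤ Multiset.card (timesM 𝒦 τ₀.1 B) := by
      intro B
      induction B using Multiset.induction_on with
      | empty => simp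
      | cons π B ih =>
        have h1 : timesM 𝒦 τ₀.1 (π ::ₘ B) = 𝒦.times τ₀.1 π + timesM 𝒦 τ₀.1 B := by
          unfold timesM
          rw [Multiset.map_cons, Multiset.sum_cons]
        rw [h1, Multiset.card_cons, Multiset.card_add]
        have h2 : 0 < Multiset.card (𝒦.times τ₀.1 π) := Multiset.card_pos.2 (hne π)
        omega
    exact this B
  rw [htimes τ₀ hτ₀, Multiset.card_singleton] at hcard
  have hB0 : B ≠ 0 := by
    rintro rfl
    have h1 := htimes τ₀ hτ₀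
    have h2 : timesM 𝒦 τ₀.1 0 = 0 := rfl
    rw [h2] at h1
    exact Multiset.singleton_ne_zero _ h1.symm
  obtain ⟨π, rfl⟩ : ∃ π, B = {π} := by
    refine Multiset.card_eq_one.1 ?_
    have := Multiset.card_pos.2 hB0
    omega
  refine ⟨π, E, fun τ hτ => ⟨hB τ hτ, ?_⟩⟩
  have h1 := htimes τ hτ
  unfold timesM at h1
  rwa [Multiset.map_singleton, Multiset.sum_singleton] at h1

/-- at almost all places, the sums over the group have the same parameters -/
theorem key_spread {R : 𝒦.Pair} {Q : Good 𝒦 R → 𝒦.Rep}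
    (hQ : ∀ τ, {v | 𝒦.sat (Q τ) v ≠ tens (𝒦.frob R v) (𝒦.satT τ.1 v)}.Finite) {π : 𝒦.Rep} {τ : Good 𝒦 R}
    (h : 𝒦.timesDual τ.1 (Q τ) = norm 𝒦.toCuspidals (𝒦.grp τ.1) {π}) :
    {v | spread 𝒦.toCuspidals (𝒦.grp τ.1) v (𝒦.sat π v) ≠
      spread 𝒦.toCuspidals (𝒦.grp τ.1) v (𝒦.frob R v)}.Finite := by
  refine (((hQ τ).union (𝒦.ramT_finite τ.1)).union (𝒦.ram_finite π)).subset fun v hv => ?_
  by_contra hcon
  simp only [Set.mem_union, not_or] at hcon
  obtain ⟨⟨h1, h2⟩, h3⟩ := hcon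
  have h1' : 𝒦.sat (Q τ) v = tens (𝒦.frob R v) (𝒦.satT τ.1 v) := by
    by_contra h
    exact h1 h
  refine hv ?_
  have hD : ∀ δ ∈ 𝒦.grp τ.1, v ∉ 𝒦.ramX δ := fun δ hδ h => h2 (𝒦.ramX_grp τ.1 δ hδ h)
  have hπ : ∀ ρ ∈ ({π} : Multiset 𝒦.Rep), v ∉ 𝒦.ram ρ := fun ρ hρ => by rwa [Multiset.mem_singleton.1 hρ]
  have h4 := ram_norm 𝒦.toCuspidals hD hπ
  rw [← h] at h4
  have h5 := (𝒦.timesDual_spec τ.1 (Q τ) v h2 h4).2
  have h6 : param 𝒦.toCuspidals (𝒦.timesDual τ.1 (Q τ)) v = tens (𝒦.sat (Q τ) v) (invs (𝒦.satT τ.1 v)) := h5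
  rw [h, param_norm 𝒦.toCuspidals hD hπ, param_singleton, h1', tens_tens_dual 𝒦 h2] at h6
  exact h6

theorem spread_invs {τ : 𝒦.Tw} (v : P) (A : Multiset ℂˣ) :
    invs (spread 𝒦.toCuspidals (𝒦.grp τ) v A) = spread 𝒦.toCuspidals (𝒦.grp τ) v (invs A) := by
  unfold spread
  rw [invs_sum]
  refine Finset.sum_congr rfl fun δ hδ => ?_
  rw [invs_scale]
  congr 1
  have h1 := congrArg (fun χ => 𝒦.value χ v) (𝒦.grp_sq τ δ hδ)
  simp only [map_mul, Pi.mul_apply, map_one, Pi.one_apply] at h1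
  exact inv_eq_of_mul_eq_one_left h1

theorem spread_bar {τ : 𝒦.Tw} {v : P} (hv : v ∉ 𝒦.ramT τ) (A : Multiset ℂˣ) :
    spread 𝒦.toCuspidals (𝒦.grp τ) (𝒦.bar v) A = spread 𝒦.toCuspidals (𝒦.grp τ) v A := by
  unfold spread
  exact Finset.sum_congr rfl fun δ hδ => by rw [𝒦.grp_bar τ δ hδ v hv]

/-- finite sets of places are carried to finite sets by complex conjugation -/
theorem bar_finite {F : Set P} (hF : F.Finite) : {v | 𝒦.bar v ∈ F}.Finite :=
  hF.preimage (fun v _ w _ h => by rw [← 𝒦.bar_bar v, ← 𝒦.bar_bar w, h])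

/-- the polarization descends -/
theorem key_dual [Infinite P] {R : 𝒦.Pair} {Q : Good 𝒦 R → 𝒦.Rep}
    (hQ : ∀ τ, {v | 𝒦.sat (Q τ) v ≠ tens (𝒦.frob R v) (𝒦.satT τ.1 v)}.Finite) {π : 𝒦.Rep} {E : Finset X}
    (h : ∀ τ : Good 𝒦 R, Avoids (𝒦.grp τ.1) E →
      𝒦.timesDual τ.1 (Q τ) = norm 𝒦.toCuspidals (𝒦.grp τ.1) {π}) :
    𝒦.conj π = 𝒦.twist (𝒦.mult R)⁻¹ (𝒦.dual π) := by
  classical
  have hv0 : Nonempty P := inferInstance
  set π₂ := 𝒦.twist (𝒦.mult R)⁻¹ (𝒦.dual π) with hπ₂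
  set E' : Finset X := (𝒦.finite_twists π₂ (𝒦.conj π)).toFinset with hE'
  obtain ⟨τ, hτ, -⟩ := good_exists 𝒦 R (E ∪ E') hv0.some
  have hS := key_spread 𝒦 hQ (h τ hτ.union.1)
  -- the finite set of bad places
  set F : Set P := ((({v | spread 𝒦.toCuspidals (𝒦.grp τ.1) v (𝒦.sat π v) ≠
      spread 𝒦.toCuspidals (𝒦.grp τ.1) v (𝒦.frob R v)} ∪ 𝒦.ramT τ.1) ∪ 𝒦.ram π) ∪ 𝒦.ramR R) ∪
      (𝒦.ramX (𝒦.mult R) ∪ 𝒦.ramX (𝒦.mult R)⁻¹) with hF
  have hFfin : F.Finite := (((hS.union (𝒦.ramT_finite τ.1)).union (𝒦.ram_finite π)).union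
    (𝒦.ramR_finite R)).union ((𝒦.ramX_finite _).union (𝒦.ramX_finite _))
  have heq : norm 𝒦.toCuspidals (𝒦.grp τ.1) {𝒦.conj π} = norm 𝒦.toCuspidals (𝒦.grp τ.1) {π₂} := by
    refine ext_param 𝒦.toCuspidals (hFfin.union (bar_finite 𝒦 hFfin)) fun v hv => ?_
    rw [Set.mem_union, not_or] at hv
    obtain ⟨hv1, hv2⟩ := hv
    have hv2' : 𝒦.bar v ∉ F := hv2
    rw [hF] at hv1 hv2'
    simp only [Set.mem_union, not_or] at hv1 hv2'
    obtain ⟨⟨⟨⟨a1, a2⟩, a3⟩, a4⟩, a5, a6⟩ := hv1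
    obtain ⟨⟨⟨⟨b1, b2⟩, b3⟩, b4⟩, b5, b6⟩ := hv2'
    have a1' : spread 𝒦.toCuspidals (𝒦.grp τ.1) v (𝒦.sat π v) =
        spread 𝒦.toCuspidals (𝒦.grp τ.1) v (𝒦.frob R v) := by
      by_contra h
      exact a1 h
    have b1' : spread 𝒦.toCuspidals (𝒦.grp τ.1) (𝒦.bar v) (𝒦.sat π (𝒦.bar v)) =
        spread 𝒦.toCuspidals (𝒦.grp τ.1) (𝒦.bar v) (𝒦.frob R (𝒦.bar v)) := by
      by_contra h
      exact b1 h
    have hD : ∀ δ ∈ 𝒦.grp τ.1, v ∉ 𝒦.ramX δ := fun δ hδ h => a2 (𝒦.ramX_grp τ.1 δ hδ h)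
    have hc : v ∉ 𝒦.ram (𝒦.conj π) := 𝒦.ram_conj π v b3
    have hd : v ∉ 𝒦.ram (𝒦.dual π) := 𝒦.ram_dual π v a3
    have h2 : v ∉ 𝒦.ram π₂ := fun h => by
      rcases 𝒦.ram_twist _ _ h with h | h
      · exact a6 h
      · exact hd h
    rw [param_norm 𝒦.toCuspidals hD fun ρ hρ => by rwa [Multiset.mem_singleton.1 hρ],
      param_norm 𝒦.toCuspidals hD fun ρ hρ => by rwa [Multiset.mem_singleton.1 hρ], param_singleton, param_singleton,
      𝒦.sat_conj π v b3, ← spread_bar 𝒦 a2, b1', spread_bar 𝒦 a2, hπ₂, 𝒦.sat_twist _ _ _ a6 hd,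
      𝒦.sat_dual π v a3]
    have h3 : 𝒦.frob R (𝒦.bar v) = scale (𝒦.value (𝒦.mult R)⁻¹ v) (invs (𝒦.frob R v)) := by
      have h4 : invs (𝒦.frob R v) = scale (𝒦.value (𝒦.mult R) v) (𝒦.frob R (𝒦.bar v)) :=
        𝒦.polarized R v a4 b4 a5
      rw [h4, scale_scale, map_inv, Pi.inv_apply, inv_mul_cancel, scale_one]
    rw [h3]
    change spread 𝒦.toCuspidals (𝒦.grp τ.1) v _ =
      spread 𝒦.toCuspidals (𝒦.grp τ.1) v (scale (𝒦.value (𝒦.mult R)⁻¹ v) (invs (𝒦.sat π v)))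
    rw [spread_scale, spread_scale, ← spread_invs, ← spread_invs, a1']
  have hmem : 𝒦.conj π ∈ norm 𝒦.toCuspidals (𝒦.grp τ.1) {π₂} := by
    rw [← heq]
    unfold norm
    rw [Multiset.mem_sum]
    refine ⟨1, (𝒦.isGrp τ.1).one_mem, ?_⟩
    rw [Multiset.map_singleton, twist_one]
    exact Multiset.mem_singleton_self _
  unfold norm at hmem
  rw [Multiset.mem_sum] at hmem
  obtain ⟨δ, hδ, h1⟩ := hmem
  rw [Multiset.map_singleton, Multiset.mem_singleton] at h1
  have h2 : δ ∈ E' := by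
    rw [hE', Set.Finite.mem_toFinset]
    exact h1.symm
  have h3 := hτ.union.2 δ hδ h2
  rw [h1, h3, twist_one]

end Run7.h55.KD
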