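import Mathlib
import Pool.Agent.Run7.h55.KD.Polar

/-!
# Galois representations for L-algebraic cuspidal representations of `GL(n)`: reduction to the balanced ones

The setting (`LAlgebraic`) and the main lemmas.
-/

set_option autoImplicit false

open Finset

namespace Run7.h55.KD

/-- the image of a multiset of numbers under an automorphism of `ℂ` -/
def conjM (σ : ℂ ≃+* ℂ) (A : Multiset ℂˣ) : Multiset ℂˣ := A.map (Units.map (σ : ℂ →* ℂ))

/-- A number field `F`, a prime `ℓ` and an isomorphism `ℚ̄_ℓ ≅ ℂ`, the set `P` of the finite places of `F` which do not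
divide `ℓ`, the set `U` of the real places `u` with complex conjugations `c_u`. The underlying `Cuspidals P X` is the
following: `X` is the group of the continuous `ℓ`-adic characters of `Γ_F` which are unramified almost everywhere, `Rep` is
the set of the irreducible continuous `ℓ`-adic representations of `Γ_F` which are unramified almost everywhere, `sat ρ v` is
the set of the eigenvalues of the Frobenius element, and `isobaric` is the theorem of Chebotarev. The fields which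
are propositions are known facts. -/
structure LAlgebraic (P X U : Type) [CommGroup X] extends Cuspidals P X where
  /-- the L-algebraic cuspidal automorphic representations of the groups `GL(n, 𝔸_F)`, `n ≥ 1` -/
  Cusp : Type
  /-- the number `n` -/
  dim : Cusp → ℕ
  /-- the places at which the representation is ramified -/
  ramC : Cusp → Set P
  ramC_finite : ∀ Q, (ramC Q).Finite
  /-- the Satake parameter -/
  satC : Cusp → P → Multiset ℂˣ
  /-- the trace of the complex conjugation at `u`, according to the parameter at the real place `u` -/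
  trC : Cusp → U → ℤ
  /-- the self-twists, Hecke characters of finite order, as characters of `Γ_F` -/
  selfTwist : Cusp → Finset X
  /-- the two-dimensional representations `τ` of `Γ_F` with finite image whose projective image is a Klein four group -/
  Tw : Type
  /-- the four characters `δ` with `τ ⊗ δ ≅ τ` -/
  grp : Tw → Finset X
  isGrp : ∀ τ, IsGrp (grp τ)
  grp_sq : ∀ τ, ∀ δ ∈ grp τ, δ * δ = 1
  /-- the places at which `τ` is ramified -/
  ramT : Tw → Set P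
  ramT_finite : ∀ τ, (ramT τ).Finite
  ramX_grp : ∀ τ, ∀ δ ∈ grp τ, ramX δ ⊆ ramT τ
  /-- the eigenvalues of the Frobenius element -/
  satT : Tw → P → Multiset ℂˣ
  /-- `τ ⊗ τ^∨ = ⊕ δ` -/
  satT_dual : ∀ τ v, v ∉ ramT τ → tens (satT τ v) (invs (satT τ v)) = (grp τ).val.map fun δ => value δ v
  /-- the trace of `τ(c_u)` -/
  trT : Tw → U → ℤ
  /-- a number field which contains the eigenvalues of all `τ(g)` -/
  fieldT : Tw → IntermediateField ℚ ℂ
  fieldT_finite : ∀ τ, FiniteDimensional ℚ (fieldT τ)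
  fieldT_spec : ∀ τ (σ : ℂ ≃+* ℂ), (∀ x ∈ fieldT τ, σ x = x) → ∀ v, v ∉ ramT τ → conjM σ (satT τ v) = satT τ v
  /-- there are many `τ` with `tr τ(c_u) = 0` for all real places `u` -/
  rich : ∀ (E : Finset X) (v : P), ∃ τ, (∀ u, trT τ u = 0) ∧ Avoids (grp τ) E ∧ v ∉ ramT τ ∧
    ∀ δ ∈ grp τ, value δ v = 1
  /-- `Q ⊠ τ`, which is cuspidal if no `δ ≠ 1` in the group of `τ` is a self-twist of `Q` -/
  tensor : ∀ Q τ, Avoids (grp τ) (selfTwist Q) → ∃ Q' : Cusp, dim Q' = 2 * dim Q ∧ ramC Q' ⊆ ramC Q ∪ ramT τ ∧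
    (∀ v, v ∉ ramC Q → v ∉ ramT τ → satC Q' v = tens (satC Q v) (satT τ v)) ∧ ∀ u, trC Q' u = trC Q u * trT τ u
  /-- the constituents of `ρ ⊗ (τ^σ)^∨`, where `τ^σ` is the conjugate of `τ` by `σ` -/
  timesDual : (ℂ ≃+* ℂ) → Tw → Rep → Multiset Rep
  timesDual_spec : ∀ σ τ ρ v, v ∉ ramT τ → v ∉ ram ρ → (∀ ρ' ∈ timesDual σ τ ρ, v ∉ ram ρ') ∧
    ((timesDual σ τ ρ).map fun ρ' => sat ρ' v).sum = tens (sat ρ v) (conjM σ (invs (satT τ v)))

variable {P X U : Type} [CommGroup X]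

theorem conjM_scale (σ : ℂ ≃+* ℂ) (a : ℂˣ) (A : Multiset ℂˣ) :
    conjM σ (scale a A) = scale (Units.map (σ : ℂ →* ℂ) a) (conjM σ A) := by
  unfold conjM scale
  rw [Multiset.map_map, Multiset.map_map]
  refine Multiset.map_congr rfl fun β _ => ?_
  simp only [Function.comp_apply, map_mul]

theorem conjM_add (σ : ℂ ≃+* ℂ) (A B : Multiset ℂˣ) : conjM σ (A + B) = conjM σ A + conjM σ B :=
  Multiset.map_add _ _ _

theorem conjM_tens (σ : ℂ ≃+* ℂ) (A B : Multiset ℂˣ) : conjM σ (tens A B) = tens (conjM σ A) (conjM σ B) := by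
  induction B using Multiset.induction_on with
  | empty => rw [tens_zero_right]; exact (tens_zero_right _).symm
  | cons b B ih =>
    have h1 : conjM σ (b ::ₘ B) = Units.map (σ : ℂ →* ℂ) b ::ₘ conjM σ B := Multiset.map_cons _ _ _
    rw [h1, tens_cons_right, tens_cons_right, conjM_add, ih, conjM_scale]

theorem conjM_invs (σ : ℂ ≃+* ℂ) (A : Multiset ℂˣ) : conjM σ (invs A) = invs (conjM σ A) := by
  unfold conjM invs
  rw [Multiset.map_map, Multiset.map_map]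
  refine Multiset.map_congr rfl fun β _ => ?_
  simp only [Function.comp_apply, map_inv]

variable (𝒢 : LAlgebraic P X U)

theorem value_pm {τ : 𝒢.Tw} {δ : X} (hδ : δ ∈ 𝒢.grp τ) (v : P) : 𝒢.value δ v = 1 ∨ 𝒢.value δ v = -1 := by
  have h1 := congrArg (fun χ => 𝒢.value χ v) (𝒢.grp_sq τ δ hδ)
  simp only [map_mul, Pi.mul_apply, map_one, Pi.one_apply] at h1
  have h2 : ((𝒢.value δ v : ℂˣ) : ℂ) * ((𝒢.value δ v : ℂˣ) : ℂ) = 1 := by
    rw [← Units.val_mul, h1, Units.val_one]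
  rcases mul_self_eq_one_iff.1 h2 with h | h
  · exact Or.inl (Units.ext h)
  · exact Or.inr (Units.ext (by rw [h]; simp))

theorem value_conj {τ : 𝒢.Tw} {δ : X} (hδ : δ ∈ 𝒢.grp τ) (v : P) (σ : ℂ ≃+* ℂ) :
    Units.map (σ : ℂ →* ℂ) (𝒢.value δ v) = 𝒢.value δ v := by
  rcases value_pm 𝒢 hδ v with h | h
  · rw [h, map_one]
  · rw [h]
    refine Units.ext ?_
    simp

theorem conjM_spread {τ : 𝒢.Tw} (v : P) (σ : ℂ ≃+* ℂ) (A : Multiset ℂˣ) :
    conjM σ (spread 𝒢.toCuspidals (𝒢.grp τ) v A) = spread 𝒢.toCuspidals (𝒢.grp τ) v (conjM σ A) := by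
  rw [spread_eq_tens, spread_eq_tens, conjM_tens]
  congr 1
  unfold conjM
  rw [Multiset.map_map]
  exact Multiset.map_congr rfl fun δ hδ => value_conj 𝒢 hδ v σ

theorem tens_tens_conj {τ : 𝒢.Tw} {v : P} (hv : v ∉ 𝒢.ramT τ) (σ : ℂ ≃+* ℂ) (A : Multiset ℂˣ) :
    tens (conjM σ (tens A (𝒢.satT τ v))) (conjM σ (invs (𝒢.satT τ v))) =
      spread 𝒢.toCuspidals (𝒢.grp τ) v (conjM σ A) := by
  rw [← conjM_tens, tens_assoc, 𝒢.satT_dual τ v hv, ← spread_eq_tens, conjM_spread]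

/-- the twists which make `Q` balanced, in general position -/
def Good' (Q : 𝒢.Cusp) : Type := {τ : 𝒢.Tw // (∀ u, 𝒢.trT τ u = 0) ∧ Avoids (𝒢.grp τ) (𝒢.selfTwist Q)}

theorem good_exists' (Q : 𝒢.Cusp) (E : Finset X) (v : P) : ∃ τ : Good' 𝒢 Q, Avoids (𝒢.grp τ.1) E ∧
    v ∉ 𝒢.ramT τ.1 ∧ ∀ δ ∈ 𝒢.grp τ.1, 𝒢.value δ v = 1 := by
  classical
  obtain ⟨τ, h1, h2, h3, h4⟩ := 𝒢.rich (E ∪ 𝒢.selfTwist Q) v
  exact ⟨⟨τ, h1, h2.union.2⟩, h2.union.1, h3, h4⟩

/-- the constituents of `r ⊗ (τ^σ)^∨` -/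
def timesDualM (σ : ℂ ≃+* ℂ) (τ : 𝒢.Tw) (B : Multiset 𝒢.Rep) : Multiset 𝒢.Rep := (B.map (𝒢.timesDual σ τ)).sum

theorem timesDualM_spec (σ : ℂ ≃+* ℂ) {τ : 𝒢.Tw} {v : P} (hv : v ∉ 𝒢.ramT τ) (B : Multiset 𝒢.Rep)
    (hB : ∀ ρ ∈ B, v ∉ 𝒢.ram ρ) : (∀ ρ ∈ timesDualM 𝒢 σ τ B, v ∉ 𝒢.ram ρ) ∧
      param 𝒢.toCuspidals (timesDualM 𝒢 σ τ B) v =
        tens (param 𝒢.toCuspidals B v) (conjM σ (invs (𝒢.satT τ v))) := by
  induction B using Multiset.induction_on with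
  | empty =>
    have h0 : timesDualM 𝒢 σ τ 0 = 0 := rfl
    rw [h0, param_zero, tens_zero_left]
    exact ⟨by simp, rfl⟩
  | cons ρ B ih =>
    have h1 : timesDualM 𝒢 σ τ (ρ ::ₘ B) = 𝒢.timesDual σ τ ρ + timesDualM 𝒢 σ τ B := by
      unfold timesDualM
      rw [Multiset.map_cons, Multiset.sum_cons]
    obtain ⟨h2, h3⟩ := ih fun ρ hρ => hB ρ (Multiset.mem_cons_of_mem hρ)
    obtain ⟨h4, h5⟩ := 𝒢.timesDual_spec σ τ ρ v hv (hB ρ (Multiset.mem_cons_self _ _))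
    rw [h1]
    refine ⟨fun ρ' hρ' => ?_, ?_⟩
    · rcases Multiset.mem_add.1 hρ' with h | h
      · exact h4 ρ' h
      · exact h2 ρ' h
    · rw [param_add, param_cons, tens_add_left, h3]
      congr 1

/-- there is a semisimple representation which is unramified with the eigenvalues `A(v)` outside `b` -/
def Attached (A : P → Multiset ℂˣ) (b : Set P) : Prop :=
  ∃ B : Multiset 𝒢.Rep, ∀ v, v ∉ b → (∀ ρ ∈ B, v ∉ 𝒢.ram ρ) ∧ param 𝒢.toCuspidals B v = A v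

/-- **Descent of Galois representations.** -/
theorem attached_descent [Infinite P] (Q : 𝒢.Cusp) (σ : ℂ ≃+* ℂ)
    (h : ∀ τ : Good' 𝒢 Q, Attached 𝒢 (fun v => conjM σ (tens (𝒢.satC Q v) (𝒢.satT τ.1 v))) (𝒢.ramC Q ∪ 𝒢.ramT τ.1)) :
    Attached 𝒢 (fun v => conjM σ (𝒢.satC Q v)) (𝒢.ramC Q) := by
  classical
  choose r hr using h
  have hv0 : Nonempty P := inferInstance
  have hspec : ∀ (τ : Good' 𝒢 Q) (v : P), v ∉ 𝒢.ramC Q → v ∉ 𝒢.ramT τ.1 →
      (∀ ρ ∈ timesDualM 𝒢 σ τ.1 (r τ), v ∉ 𝒢.ram ρ) ∧ param 𝒢.toCuspidals (timesDualM 𝒢 σ τ.1 (r τ)) v =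
        spread 𝒢.toCuspidals (𝒢.grp τ.1) v (conjM σ (𝒢.satC Q v)) := by
    intro τ v h1 h2
    obtain ⟨h3, h4⟩ := hr τ v (fun h => by rcases h with h | h; exacts [h1 h, h2 h])
    obtain ⟨h5, h6⟩ := timesDualM_spec 𝒢 σ h2 (r τ) h3
    refine ⟨h5, ?_⟩
    rw [h6, h4, tens_tens_conj 𝒢 h2]
  obtain ⟨B, E, hB⟩ := descent 𝒢.toCuspidals (J := Good' 𝒢 Q) (fun v => conjM σ (𝒢.satC Q v)) (fun τ => 𝒢.grp τ.1)
    (fun τ => 𝒢.isGrp τ.1) (fun E => by
      obtain ⟨τ, h, -⟩ := good_exists' 𝒢 Q E hv0.some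
      exact ⟨τ, h⟩) (fun τ => timesDualM 𝒢 σ τ.1 (r τ)) (fun τ => by
      refine ((𝒢.ramC_finite Q).union (𝒢.ramT_finite τ.1)).subset fun v hv => ?_
      by_contra hcon
      simp only [Set.mem_union, not_or] at hcon
      exact hv (hspec τ v hcon.1 hcon.2).2)
  refine ⟨B, fun v hv => ?_⟩
  obtain ⟨τ, hτ, h1, h2⟩ := good_exists' 𝒢 Q E v
  obtain ⟨h3, h4⟩ := hspec τ v hv h1
  have hBv : ∀ ρ ∈ B, v ∉ 𝒢.ram ρ := by
    intro ρ hρ
    refine h3 ρ ?_
    rw [hB τ hτ]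
    unfold norm
    rw [Multiset.mem_sum]
    refine ⟨1, (𝒢.isGrp τ.1).one_mem, Multiset.mem_map.2 ⟨ρ, hρ, twist_one _ ρ⟩⟩
  refine ⟨hBv, ?_⟩
  rw [hB τ hτ, param_norm 𝒢.toCuspidals (fun δ hδ h => h1 (𝒢.ramX_grp τ.1 δ hδ h)) hBv,
    spread_trivial _ h2, spread_trivial _ h2] at h4
  exact nsmul_inj (Finset.card_ne_zero_of_mem (𝒢.isGrp τ.1).one_mem) h4

/-- two multisets of representations which have the same sums over two groups of characters in general position are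
equal -/
theorem eq_of_norm {D D' : Finset X} (hD : IsGrp D) (hD' : IsGrp D') {B C : Multiset 𝒢.Rep}
    {E : Finset X} (hE : ∀ π ∈ B, ∀ π' ∈ B, ∀ χ, 𝒢.twist χ π = π' → χ ∈ E)
    (h1 : Avoids D E) (h2 : ∀ δ ∈ D, ∀ ε ∈ D', δ⁻¹ * ε ∈ E → δ = 1)
    (h3 : norm 𝒢.toCuspidals D C = norm 𝒢.toCuspidals D B)
    (h4 : norm 𝒢.toCuspidals D' C = norm 𝒢.toCuspidals D' B) : C = B := by
  classical
  letI := action 𝒢.toCuspidals
  have hnorm : ∀ (D : Finset X) (C : Multiset 𝒢.Rep), norm 𝒢.toCuspidals D C = ∑ δ ∈ D, tr δ C := fun _ _ => rfl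
  have htw : ∀ (χ : X) (π : 𝒢.Rep), χ • π = 𝒢.twist χ π := fun _ _ => rfl
  have hsub : ∀ {D : Finset X}, IsGrp D → norm 𝒢.toCuspidals D C = norm 𝒢.toCuspidals D B →
      ∀ π ∈ C, ∃ δ ∈ D, δ⁻¹ • π ∈ B := by
    intro D hD h π hπ
    have h5 : π ∈ norm 𝒢.toCuspidals D B := by
      rw [← h, hnorm, Multiset.mem_sum]
      exact ⟨1, hD.one_mem, by rwa [tr_one]⟩
    rw [hnorm, Multiset.mem_sum] at h5
    obtain ⟨δ, hδ, h6⟩ := h5
    exact ⟨δ, hδ, mem_tr.1 h6⟩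
  -- `C` has its constituents among those of `B`
  have hCB : ∀ π ∈ C, π ∈ B := by
    intro π hπ
    obtain ⟨δ, hδ, h5⟩ := hsub hD h3 π hπ
    obtain ⟨ε, hε, h6⟩ := hsub hD' h4 π hπ
    have h7 : δ⁻¹ * ε ∈ E := by
      refine hE _ h6 _ h5 _ ?_
      rw [← htw, mul_smul, smul_inv_smul]
    rw [h2 δ hδ ε hε h7, inv_one, one_smul] at h5
    exact h5
  -- count
  have hone : ∀ A : Multiset 𝒢.Rep, (∀ π ∈ A, π ∈ B) → ∀ π ∈ B,
      Multiset.count π (norm 𝒢.toCuspidals D A) = Multiset.count π A := by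
    intro A hA π hπ
    rw [hnorm, Multiset.count_sum', Finset.sum_eq_single_of_mem 1 hD.one_mem, tr_one]
    intro δ hδ hne
    rw [count_tr]
    refine Multiset.count_eq_zero_of_notMem fun h => hne ?_
    refine h1 δ hδ (hE _ (hA _ h) _ hπ _ ?_)
    rw [← htw, smul_inv_smul]
  refine Multiset.ext.2 fun π => ?_
  by_cases hπ : π ∈ B
  · rw [← hone C hCB π hπ, ← hone B (fun _ h => h) π hπ, h3]
  · rw [Multiset.count_eq_zero_of_notMem hπ, Multiset.count_eq_zero_of_notMem fun h => hπ (hCB π h)]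

/-- the characters which carry a constituent of `B` to a constituent of `B` -/
theorem exists_transporters (𝒜 : Cuspidals P X) (B : Multiset 𝒜.Rep) :
    ∃ E : Finset X, ∀ π ∈ B, ∀ π' ∈ B, ∀ χ, 𝒜.twist χ π = π' → χ ∈ E := by
  classical
  have hfin : {χ : X | ∃ π ∈ B.toFinset, ∃ π' ∈ B.toFinset, 𝒜.twist χ π = π'}.Finite := by
    have : {χ : X | ∃ π ∈ B.toFinset, ∃ π' ∈ B.toFinset, 𝒜.twist χ π = π'} =
        ⋃ π ∈ B.toFinset, ⋃ π' ∈ B.toFinset, {χ : X | 𝒜.twist χ π = π'} := by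
      ext χ
      simp only [Set.mem_ofPred_eq, Set.mem_iUnion, exists_prop]
    rw [this]
    exact B.toFinset.finite_toSet.biUnion fun π _ => B.toFinset.finite_toSet.biUnion fun π' _ => 𝒜.finite_twists π π'
  refine ⟨hfin.toFinset, fun π hπ π' hπ' χ h => ?_⟩
  rw [Set.Finite.mem_toFinset]
  exact ⟨π, Multiset.mem_toFinset.2 hπ, π', Multiset.mem_toFinset.2 hπ', h⟩

end Run7.h55.KD
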